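import Mathlib
import Pool.Agent.Helper99.SZ.All6

/-!
# MP_bde085_nt: a Szpiro type bound with the square root of the conductor, all elliptic curves

For every `ε > 0` and all integral Weierstrass equations, `log |Δ|` and `log |c₄|` are at most
`C √M B exp (ε R)`, where `B` bounds the primes `p ∣ Δ`, `p ∤ c₄` with `v_p(Δ)` even and at least
`√M`. For minimal equations of semistable curves `M` divides the conductor `N` and
`R = 1 + log N`.
-/

namespace Pool.Agent.Results.MP_bde085_nt.SquareRootSzpiro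

theorem result : ∀ ε : ℝ, 0 < ε → ∃ C : ℝ, ∀ W : WeierstrassCurve ℤ, W.Δ ≠ 0 →
    ∀ M : ℕ, M = ∏ p ∈ W.Δ.natAbs.primeFactors,
      (if (p : ℤ) ∣ W.c₄ then p ^ 2 else p ^ (W.Δ.natAbs.factorization p % 2)) →
    ∀ B : ℝ, 1 ≤ B → (∀ p ∈ W.Δ.natAbs.primeFactors, ¬ (p : ℤ) ∣ W.c₄ →
      Even (W.Δ.natAbs.factorization p) →
      Real.sqrt M ≤ (W.Δ.natAbs.factorization p : ℝ) → (p : ℝ) ≤ B) →
    ∀ R : ℝ, R = 1 + ∑ p ∈ W.Δ.natAbs.primeFactors,
      (if (p : ℤ) ∣ W.c₄ then (W.Δ.natAbs.factorization p : ℝ) else 1) * Real.log p →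
    Real.log |(W.Δ : ℝ)| ≤ C * Real.sqrt M * B * Real.exp (ε * R) ∧
    Real.log |(W.c₄ : ℝ)| ≤ C * Real.sqrt M * B * Real.exp (ε * R) := by
  intro ε hε
  obtain ⟨C, -, h⟩ := Pool.Helper99.SZ.sz_AFY ε hε
  refine ⟨C, ?_⟩
  intro W hΔ M hM B hB hBp R hR
  have hcond : Pool.Helper99.SZ.cond W = M := by
    rw [hM]
    rfl
  obtain ⟨h3, h4⟩ := h W hΔ B hB (by rw [hcond]; exact hBp) R hR
  rw [hcond] at h3 h4
  exact ⟨h3, h4⟩

end Pool.Agent.Results.MP_bde085_nt.SquareRootSzpiro
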