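import Mathlib
import Pool.Agent.Helper99.SZ.All4

/-!
# MP_bde085_nt: a Szpiro type bound with the square root of the conductor for elliptic curves with
a rational point of order two, without any condition on the exponents

For every `ε > 0` and all integral Weierstrass equations with a rational point of order two,
`log |Δ|` and `log |c₄|` are at most `C √N exp (ε R)`, where `N` is the product over the primes
`p ∣ Δ` of `p²` if `p ∣ c₄` and `p` otherwise. For minimal equations of semistable curves `N` is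
the conductor and `R = 1 + log N`.
-/

namespace Pool.Agent.Results.MP_bde085_nt.TwoTorsionSzpiro

theorem result : ∀ ε : ℝ, 0 < ε → ∃ C : ℝ, ∀ W : WeierstrassCurve ℤ, W.Δ ≠ 0 →
    (∃ x : ℚ, 4 * x ^ 3 + W.b₂ * x ^ 2 + 2 * W.b₄ * x + W.b₆ = 0) →
    ∀ R : ℝ, R = 1 + ∑ p ∈ W.Δ.natAbs.primeFactors,
      (if (p : ℤ) ∣ W.c₄ then (W.Δ.natAbs.factorization p : ℝ) else 1) * Real.log p →
    ∀ N : ℕ, N = ∏ p ∈ W.Δ.natAbs.primeFactors, (if (p : ℤ) ∣ W.c₄ then p ^ 2 else p) →
    Real.log |(W.Δ : ℝ)| ≤ C * Real.sqrt N * Real.exp (ε * R) ∧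
    Real.log |(W.c₄ : ℝ)| ≤ C * Real.sqrt N * Real.exp (ε * R) := by
  intro ε hε
  obtain ⟨C, -, h⟩ := Pool.Helper99.SZ.sz_QFI ε hε
  refine ⟨C, ?_⟩
  intro W hΔ hx R hR N hN
  obtain ⟨h3, h4⟩ := h W hΔ hx R hR
  rw [← hN] at h3 h4
  exact ⟨h3, h4⟩

end Pool.Agent.Results.MP_bde085_nt.TwoTorsionSzpiro
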